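import Pool.Agent.R346.BG.Form2

/-!
# The mean of Montgomery's function between the multiples of `1/ℓ`

Assume the Riemann hypothesis.  Let `D(T; α, β)` be the difference between the normalised number of
pairs of zeros with normalised difference in `[α, β]` and its conjectured value.  Call a length `ℓ`
good if one of the following holds.

* There are disjoint intervals `(p n, q n)` of positive reals, each to the left of the next one, with
  `∑ ((q n - p n) / q n)² = ∞`, such that for each window `[a, a + ℓ]` inside the `n`-th interval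
  `|D|` is at most `C exp (-c (q n - p n)) + o(1)`.
* For all distant windows `[a, a + ℓ]` there is a one-sided bound, an upper bound or a lower bound,
  for `D` with an error `C exp (-c a) + o(1)`.

If one length `ℓ` is good, then Montgomery's function `F(α, T)` has the mean value `1` on every
interval beyond `α = 1` that contains no multiple of `1/ℓ`.
-/

open Filter Topology
open Complex (I)

namespace Pool.Agent.Results.MP_00e05b_nt.BetweenMultiples

/-- the nontrivial zeros of `ζ` with ordinate in `(0, T]` -/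
def zeros (T : ℝ) : Set ℂ :=
  {s : ℂ | 0 < s.re ∧ s.re < 1 ∧ 0 < s.im ∧ s.im ≤ T ∧ riemannZeta s = 0}

/-- the multiplicity of `s` as a zero of `ζ` -/
noncomputable def mult (s : ℂ) : ℕ := analyticOrderNatAt riemannZeta s

/-- `X(T) = (T / 2π) log T` -/
noncomputable def X (T : ℝ) : ℝ := T / (2 * Real.pi) * Real.log T

/-- Montgomery's function `F(α, T)` (its values are real on the Riemann hypothesis) -/
noncomputable def F (T α : ℝ) : ℂ :=
  (X T : ℂ)⁻¹ * ∑ᶠ s ∈ zeros T, ∑ᶠ s' ∈ zeros T, (mult s : ℂ) * (mult s' : ℂ) *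
    ((T : ℂ) ^ (I * α * (s.im - s'.im)) * (4 / (4 + (s.im - s'.im) ^ 2)))

/-- `N(T; α, β)`: the number of ordered pairs of zeros (counted with multiplicity, the diagonal
included) with ordinates in `(0, T]` whose difference lies in `[2πα / log T, 2πβ / log T]` -/
noncomputable def N (T α β : ℝ) : ℕ :=
  ∑ᶠ s ∈ zeros T, ∑ᶠ s' ∈ {s' : ℂ | s' ∈ zeros T ∧
    2 * Real.pi * α / Real.log T ≤ s.im - s'.im ∧ s.im - s'.im ≤ 2 * Real.pi * β / Real.log T},
      mult s * mult s'

/-- the constant predicted by Montgomery, `∫_α^β (1 - (sin πu / πu)²) du + δ(α, β)` -/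
noncomputable def P (α β : ℝ) : ℝ :=
  (∫ u in α..β, (1 - (Real.sin (Real.pi * u) / (Real.pi * u)) ^ 2)) +
    if α ≤ 0 ∧ 0 ≤ β then 1 else 0

/-- the discrepancy `D(T; α, β) = N(T; α, β) / X(T) - P(α, β)` -/
noncomputable def D (T α β : ℝ) : ℝ := N T α β / X T - P α β

/-- control of the windows of length `ℓ` inside a sparse sequence of intervals: there are intervals
`(p n, q n)` of positive numbers, each to the left of the next one, with
`∑ ((q n - p n) / q n)² = ∞`, and constants `C, c > 0`, such that for every `n` and every window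
`[a, a + ℓ]` inside `(p n, q n)` one has `|D(T; a, a + ℓ)| ≤ C exp (-c (q n - p n)) + o(1)` along
`l` -/
def Sparse (l : Filter ℝ) (ℓ : ℝ) : Prop := ∃ (p q : ℕ → ℝ) (C c : ℝ), 0 < C ∧ 0 < c ∧
  (∀ n, 0 < p n) ∧ (∀ n, p n < q n) ∧ (∀ n, q n ≤ p (n + 1)) ∧
  (¬ Summable fun n => ((q n - p n) / q n) ^ 2) ∧ ∀ n a, p n < a → a + ℓ < q n →
    ∀ ε : ℝ, 0 < ε → ∀ᶠ T in l, |D T a (a + ℓ)| ≤ C * Real.exp (-(c * (q n - p n))) + ε

/-- the one-sided bound for distant windows of length `ℓ`: for some `C, c, A > 0` and every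
`a ≥ A` one has `s D(T; a, a + ℓ) ≤ C exp (-c a) + o(1)` along `l`.  For `s = 1` it is an upper bound
for `D`, for `s = -1` a lower bound. -/
def OneSided (l : Filter ℝ) (ℓ s : ℝ) : Prop := ∃ C c A : ℝ, 0 < C ∧ 0 < c ∧ 0 < A ∧
  ∀ a : ℝ, A ≤ a → ∀ ε : ℝ, 0 < ε → ∀ᶠ T in l, s * D T a (a + ℓ) ≤ C * Real.exp (-(c * a)) + ε

/-- good lengths -/
def Good (l : Filter ℝ) (ℓ : ℝ) : Prop := Sparse l ℓ ∨ OneSided l ℓ 1 ∨ OneSided l ℓ (-1)

/-- **Theorem.**  Assume the Riemann hypothesis, let `l` be a filter finer than `T → ∞` (for instance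
`T → ∞` itself, or a sequence of values of `T`), and let `Λ` be a set of positive lengths (for
instance one length).  (1) If every `ℓ ∈ Λ` is good along `l`, then
`∫_a^b F(α, T) dα → ∫_a^b min(α, 1) dα` along `l` for all `0 < a < b` and every `γ > 0` in the group
generated by `Λ` (for instance `γ = ℓ ∈ Λ`) such that `[a, b]` contains no multiple of `1/γ`.
(2) If `Λ` generates a dense subgroup of the real line, then `∫_a^b F(α, T) dα → ∫_a^b min(α, 1) dα`
along `l` for all `0 < a < b` if and only if every `ℓ ∈ Λ` is good along `l`. -/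
theorem result (hRH : RiemannHypothesis) (l : Filter ℝ) (hl : l ≤ atTop) (Λ : Set ℝ)
    (hpos : ∀ ℓ ∈ Λ, 0 < ℓ) :
    ((∀ ℓ ∈ Λ, Good l ℓ) → ∀ γ ∈ AddSubgroup.closure Λ, 0 < γ → ∀ a b : ℝ, 0 < a → a < b →
      (∀ k : ℤ, (k : ℝ) / γ ∉ Set.Icc a b) →
      Tendsto (fun T => ∫ α in a..b, (F T α).re) l (𝓝 (∫ α in a..b, min α 1))) ∧
    (Dense (AddSubgroup.closure Λ : Set ℝ) →
      ((∀ a b : ℝ, 0 < a → a < b →
        Tendsto (fun T => ∫ α in a..b, (F T α).re) l (𝓝 (∫ α in a..b, min α 1))) ↔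
      ∀ ℓ ∈ Λ, Good l ℓ)) :=
  Pool.Agent.R346.BG.Fo.main hRH l hl Λ hpos

end Pool.Agent.Results.MP_00e05b_nt.BetweenMultiples
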