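import Pool.Agent.R846.FL.Zeta

/-!
# The strong pair correlation conjecture fails on exponentially long ranges

The strong pair correlation conjecture asserts `F(α, T) = 1 + o(1)` uniformly for `1 ≤ α ≤ A`, for
every fixed `A`.  We prove, without any hypothesis, that it cannot hold uniformly for
`1 ≤ α ≤ exp (C T)`: `F(α, T)` takes arbitrarily large values there, even at integers `α`.

Proof.  Write `U = c' T / log T`.  By simultaneous approximation there is an integer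
`1 ≤ q ≤ 7 ^ N(2U)` for which all `T ^ (iqγ)`, `0 < γ ≤ 2U`, are near `1`.  `F(q, T)` is, up to the
normalisation, a positive semidefinite quadratic form at the vector `(T ^ (iqγ))`.  We use
Cauchy-Schwarz for this form with the indicator of the zeros up to height `U`; the value of the form
at this indicator is `≫ N(U)² / U ≍ c' T log T`.
-/

open Filter

namespace Pool.Agent.Results.MP_00e05b_nt.ExponentialRange

/-- the nontrivial zeros of `ζ` with ordinate in `(0, T]` -/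
def zeros (T : ℝ) : Set ℂ :=
  {s : ℂ | riemannZeta s = 0 ∧ 0 < s.re ∧ s.re < 1 ∧ 0 < s.im ∧ s.im ≤ T}

/-- the multiplicity of `s` as a zero of `ζ` -/
noncomputable def mult (s : ℂ) : ℕ := analyticOrderNatAt riemannZeta s

/-- Montgomery's function `F(α, T)`:
`((T/2π) log T)⁻¹ ∑_γ ∑_γ' T ^ (iα(γ - γ')) w(γ - γ')`, `w(u) = 4 / (4 + u²)`, over the zeros with
ordinates in `(0, T]`, counted with multiplicity -/
noncomputable def F (α T : ℝ) : ℂ :=
  ((T / (2 * Real.pi) * Real.log T : ℝ) : ℂ)⁻¹ *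
    ∑ᶠ s ∈ zeros T, ∑ᶠ s' ∈ zeros T, (mult s : ℂ) * (mult s' : ℂ) *
      ((T : ℂ) ^ (Complex.I * α * ((s.im - s'.im : ℝ) : ℂ)) *
        (4 / (4 + ((s.im - s'.im : ℝ) : ℂ) ^ 2)))

open Pool.Agent.R846.FL

lemma term_eq {T : ℝ} (hT : 0 < T) (α d : ℝ) :
    (T : ℂ) ^ (Complex.I * α * (d : ℂ)) * (4 / (4 + (d : ℂ) ^ 2)) =
      ((Real.cos (α * Real.log T * d) * w d : ℝ) : ℂ) +
        ((Real.sin (α * Real.log T * d) * w d : ℝ) : ℂ) * Complex.I := by
  have hT0 : (T : ℂ) ≠ 0 := by exact_mod_cast hT.ne'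
  rw [Complex.cpow_def_of_ne_zero hT0, ← Complex.ofReal_log hT.le]
  have e : (Real.log T : ℂ) * (Complex.I * α * (d : ℂ)) =
      ((α * Real.log T * d : ℝ) : ℂ) * Complex.I := by push_cast; ring
  rw [e, Complex.exp_mul_I, ← Complex.ofReal_cos, ← Complex.ofReal_sin]
  unfold w
  push_cast
  ring

lemma zeros_finite (T : ℝ) : (zeros T).Finite := SG.ZS_finite T

lemma toFinset_eq (T : ℝ) : (zeros_finite T).toFinset = Zf T := rfl

lemma F_eq {T : ℝ} (hT : 0 < T) (α : ℝ) :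
    F α T = ((T / (2 * Real.pi) * Real.log T : ℝ) : ℂ)⁻¹ *
      (((∑ s ∈ Zf T, ∑ s' ∈ Zf T,
        mu s * mu s' * (Real.cos (α * Real.log T * (s.im - s'.im)) * w (s.im - s'.im)) : ℝ) : ℂ) +
      ((∑ s ∈ Zf T, ∑ s' ∈ Zf T,
        mu s * mu s' * (Real.sin (α * Real.log T * (s.im - s'.im)) * w (s.im - s'.im)) : ℝ) : ℂ) *
        Complex.I) := by
  unfold F
  congr 1
  rw [finsum_mem_eq_finite_toFinset_sum _ (zeros_finite T), toFinset_eq]
  push_cast
  rw [Finset.sum_mul, ← Finset.sum_add_distrib]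
  refine Finset.sum_congr rfl fun s _ => ?_
  rw [finsum_mem_eq_finite_toFinset_sum _ (zeros_finite T), toFinset_eq, Finset.sum_mul,
    ← Finset.sum_add_distrib]
  refine Finset.sum_congr rfl fun s' _ => ?_
  have e1 : (mu s : ℂ) = (mult s : ℂ) := by
    unfold mu
    push_cast
    rfl
  have e2 : (mu s' : ℂ) = (mult s' : ℂ) := by
    unfold mu
    push_cast
    rfl
  rw [← Complex.ofReal_sub, term_eq hT, e1, e2]
  push_cast
  ring

lemma F_re {T : ℝ} (hT : 0 < T) (α : ℝ) :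
    (F α T).re = (T / (2 * Real.pi) * Real.log T)⁻¹ * QQ T (α * Real.log T) := by
  rw [F_eq hT, ← Complex.ofReal_inv, Complex.re_ofReal_mul]
  congr 1
  rw [Complex.add_re, Complex.ofReal_re, Complex.re_ofReal_mul, Complex.I_re, mul_zero, add_zero]
  rfl

/-- **No uniformity on exponentially long ranges.**  Unconditionally:
(1) There are `C, T₀` such that for all `T ≥ T₀` and all real `1 ≤ B ≤ (log T) / C` there is an
integer `1 ≤ q ≤ exp (C B T)` with `F(q, T) ≥ B`.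
(2) For every `ε > 0` there are `C, T₀` such that for all `T ≥ T₀` there is an integer
`1 ≤ q ≤ exp (C T log T)` with `F(q, T) ≥ (1 - ε) F(0, T)`; `F(0, T)` is the trivial upper bound.
(3) There is `C` such that `F(α, T) = 1 + o(1)` does not hold uniformly for `1 ≤ α ≤ A(T)`, for any
function `A` with `A(T) ≥ exp (C T)` for arbitrarily large `T`. -/
theorem result :
    (∃ C T₀ : ℝ, 0 < C ∧ ∀ T : ℝ, T₀ ≤ T → ∀ B : ℝ, 1 ≤ B → C * B ≤ Real.log T →
      ∃ q : ℕ, 1 ≤ q ∧ (q : ℝ) ≤ Real.exp (C * B * T) ∧ B ≤ (F q T).re) ∧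
    (∀ ε : ℝ, 0 < ε → ∃ C T₀ : ℝ, 0 < C ∧ ∀ T : ℝ, T₀ ≤ T →
      ∃ q : ℕ, 1 ≤ q ∧ (q : ℝ) ≤ Real.exp (C * (T * Real.log T)) ∧
        (1 - ε) * (F 0 T).re ≤ (F q T).re) ∧
    (∃ C : ℝ, ∀ A : ℝ → ℝ, (∃ᶠ T in atTop, Real.exp (C * T) ≤ A T) →
      ¬ (∀ ε : ℝ, 0 < ε → ∀ᶠ T in atTop, ∀ α : ℝ, 1 ≤ α → α ≤ A T → ‖F α T - 1‖ ≤ ε)) := by
  have hpi := Real.pi_gt_three
  obtain ⟨C, T0, hC, hT0, h1⟩ := large1
  have key : ∀ T : ℝ, T0 ≤ T → ∀ B : ℝ, 1 ≤ B → C * B ≤ Real.log T →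
      ∃ q : ℕ, 1 ≤ q ∧ (q : ℝ) ≤ Real.exp (C * B * T) ∧ B ≤ (F q T).re := by
    intro T hT B hB hBT
    have hT1 : 1 < T := by linarith
    have hTpos : 0 < T := by linarith
    have hlog : 0 < Real.log T := Real.log_pos hT1
    obtain ⟨q, hq1, hq2, hq3⟩ := h1 T hT B hB hBT
    refine ⟨q, hq1, hq2, ?_⟩
    rw [F_re hTpos, inv_mul_eq_div, le_div_iff₀ (by positivity)]
    refine le_trans ?_ hq3
    have h2 : 0 ≤ B * (T * Real.log T) := by positivity
    have e : B * (T / (2 * Real.pi) * Real.log T) = B * (T * Real.log T) / (2 * Real.pi) := by ring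
    rw [e, div_le_iff₀ (by positivity)]
    nlinarith
  refine ⟨⟨C, T0, hC, key⟩, ?_, ?_⟩
  · intro ε hε
    obtain ⟨C', T1, hC', hT1, h2⟩ := large2 ε hε
    refine ⟨C', T1, hC', fun T hT => ?_⟩
    have hT1' : 1 < T := by linarith
    have hTpos : 0 < T := by linarith
    have hlog : 0 < Real.log T := Real.log_pos hT1'
    obtain ⟨q, hq1, hq2, hq3⟩ := h2 T hT
    refine ⟨q, hq1, hq2, ?_⟩
    rw [F_re hTpos, F_re hTpos, zero_mul]
    have h3 : 0 ≤ (T / (2 * Real.pi) * Real.log T)⁻¹ := by positivity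
    have h4 := mul_le_mul_of_nonneg_left hq3 h3
    linarith
  · refine ⟨C * 3, fun A hA hcon => ?_⟩
    have h2 := hcon 1 one_pos
    have h3 : ∀ᶠ T : ℝ in atTop, T0 ≤ T ∧ C * 3 ≤ Real.log T :=
      (eventually_ge_atTop T0).and (Real.tendsto_log_atTop.eventually_ge_atTop _)
    obtain ⟨T, hTA, h4, h5, h6⟩ := (hA.and_eventually (h2.and h3)).exists
    obtain ⟨q, hq1, hq2, hq3⟩ := key T h5 3 (by norm_num) h6
    have h7 := h4 q (by exact_mod_cast hq1) (hq2.trans hTA)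
    have h8 : (F q T - 1).re ≤ 1 := (Complex.re_le_norm _).trans h7
    rw [Complex.sub_re, Complex.one_re] at h8
    linarith

end Pool.Agent.Results.MP_00e05b_nt.ExponentialRange
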