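import Pool.Agent.Y749.AH.Main

/-!
# The form factor has no point mass one in `(0, 2)`

Assume the Riemann hypothesis.  For every real `θ` with `0 < θ < 2` there is `ε > 0` such that
`∫_{θ-ε}^{θ+ε} F(α, T) dα ≤ 1 - ε` for all large `T`.  (At `θ = 0` the mass is one, and mass one at
`θ = 2` is equivalent to the Alternative Hypothesis for almost all spacings.)

Idea of the proof.  Mass one at `θ` means that in every bounded window almost all normalised
differences of the zeros are near multiples of `1 / θ`, hence the form factor is weakly periodic with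
period `θ`; for `θ < 2` this contradicts Montgomery's theorem on `(-1, 1)`.
-/

open Filter
open Complex (I)

namespace Pool.Agent.Results.MP_00e05b_nt.NoPointMass

/-- multiplicity of `s` as a zero of the Riemann zeta function (order of vanishing at `s`) -/
noncomputable def zmult (s : ℂ) : ℕ := analyticOrderNatAt riemannZeta s

/-- the number of nontrivial zeros of `ζ` with ordinate in `(0, t]`, with multiplicity -/
noncomputable def NZ (t : ℝ) : ℕ :=
  ∑ᶠ s ∈ {s : ℂ | riemannZeta s = 0 ∧ 0 < s.re ∧ s.re < 1 ∧ 0 < s.im ∧ s.im ≤ t}, zmult s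

/-- for `j ≥ 1`: the `j`-th positive ordinate `γ j` of a nontrivial zero of `ζ`, the ordinates being
listed in nondecreasing order and repeated according to multiplicity -/
noncomputable def γ (j : ℕ) : ℝ := sInf {t : ℝ | j ≤ NZ t}

/-- Montgomery's function `F(α, T)`, the sum over the pairs of indices (that is, over the pairs of
ordinates in `(0, T]`, with multiplicity); it is real, `.re` only changes the type -/
noncomputable def F (α T : ℝ) : ℝ :=
  (2 * Real.pi / (T * Real.log T) * ∑ i ∈ Finset.Icc 1 (NZ T), ∑ j ∈ Finset.Icc 1 (NZ T),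
    (T : ℂ) ^ (I * α * (γ i - γ j)) * (4 / (4 + (γ i - γ j) ^ 2)) : ℂ).re

/-- On the Riemann hypothesis: for every `0 < θ < 2` there is `ε > 0` such that
`∫_{θ-ε}^{θ+ε} F(α, T) dα ≤ 1 - ε` for all large `T`. -/
theorem result (hRH : RiemannHypothesis) (θ : ℝ) (hθ : 0 < θ) (hθ2 : θ < 2) :
    ∃ ε : ℝ, 0 < ε ∧ ∀ᶠ T : ℝ in atTop, ∫ α in (θ - ε)..(θ + ε), F α T ≤ 1 - ε := by
  have hs : 1 / 2 < 1 / θ := one_div_lt_one_div_of_lt hθ hθ2
  obtain ⟨ε, R0, h1, -, h3, -, -⟩ := Pool.Agent.Y749.AH.M.mainX hRH hs
  refine ⟨ε, h1, ?_⟩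
  rw [one_div_one_div] at h3
  exact h3

end Pool.Agent.Results.MP_00e05b_nt.NoPointMass
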